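import Mathlib
import Pool.Agent.Q153.Dav.Main

/-!
# Zero-sum subsequences avoiding prescribed residues of the length: a counterexample

For `G = C_2^3 ⊕ C_6` one has `D(G) = 9`. The sequence over `G` of length `10` which consists of the
seven elements `(p, 4)`, `p ≠ 0`, and of three copies of `(0, 5)` has no nonempty zero-sum
subsequence of even length.
-/

set_option autoImplicit false

namespace Pool.Agent.Results.MP_9fddba_co.EvenLength

/-- The Davenport constant: the least positive integer `t` such that every sequence over `G` (a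
finite multiset) of length at least `t` has a nonempty zero-sum subsequence. -/
noncomputable def davenport (G : Type) [AddCommGroup G] : ℕ :=
  sInf {t | 1 ≤ t ∧ ∀ S : Multiset G, t ≤ Multiset.card S → ∃ T ≤ S, T ≠ 0 ∧ T.sum = 0}

/-- The statement of the problem. -/
def Conjecture : Prop :=
  ∀ (G : Type) [AddCommGroup G] (r : ℕ) (n : Fin (r + 1) → ℕ), 1 < n 0 →
    (∀ j : Fin r, n j.castSucc ∣ n j.succ) → (∀ j, n j ≠ 0) →
    Nonempty (G ≃+ ∀ j, ZMod (n j)) →
    ∀ i : ℕ, 1 ≤ i → i ≤ n 0 → ∀ S : Multiset G, Multiset.card S = davenport G + i - 1 →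
    ∀ A : Finset ℕ, A ⊆ Finset.Icc 1 (n 0 - 1) → A.card = i - 1 →
    ∃ T ≤ S, T ≠ 0 ∧ T.sum = 0 ∧ ∀ b ∈ A, ¬ Multiset.card T ≡ b [MOD n 0]

/-- the group `C_2^3 ⊕ C_6` -/
abbrev G₀ : Type := (Fin 3 → ZMod 2) × ZMod 6

/-- the sequence -/
def seq : Multiset G₀ :=
  ((Finset.univ.erase (0 : Fin 3 → ZMod 2)).val.map fun p => (p, (4 : ZMod 6))) +
    Multiset.replicate 3 (0, 5)

/-- a zero-sum free sequence of length `8` -/
def seq8 : Multiset G₀ :=
  {(![1, 0, 0], 0), (![0, 1, 0], 0), (![0, 0, 1], 0)} + Multiset.replicate 5 (0, 1)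

lemma seq_card : Multiset.card seq = 10 := by decide +kernel

lemma seq_lines : ∀ T ∈ seq.powerset, T ≠ 0 → T.sum = 0 → Multiset.card T = 3 := by
  decide +kernel

lemma seq8_free : Multiset.card seq8 = 8 ∧ ∀ T ∈ seq8.powerset, T ≠ 0 → T.sum ≠ 0 := by
  decide +kernel

/-- the Davenport constant of `C_2^3 ⊕ C_6` -/
lemma davenport_eq : davenport G₀ = 9 := by
  classical
  have hmem : 9 ∈ {t | 1 ≤ t ∧ ∀ S : Multiset G₀, t ≤ Multiset.card S →
      ∃ T ≤ S, T ≠ 0 ∧ T.sum = 0} := by
    refine ⟨by norm_num, fun S hS => ?_⟩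
    -- nine elements of `S`
    obtain ⟨l, hS', hcard⟩ : ∃ l : List G₀, (l : Multiset G₀) ≤ S ∧ l.length = 9 := by
      obtain ⟨L, rfl⟩ := Quot.exists_rep S
      change 9 ≤ L.length at hS
      exact ⟨L.take 9, Multiset.coe_le.2 (List.take_sublist 9 L).subperm, by
        rw [List.length_take]; omega⟩
    let g : Fin l.length → G₀ := fun i => l.get i
    let f2 : ZMod 6 →+* ZMod 2 := ZMod.castHom (by norm_num) (ZMod 2)
    let f3 : ZMod 6 →+* ZMod 3 := ZMod.castHom (by norm_num) (ZMod 3)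
    obtain ⟨T, -, hne, h1, h2⟩ := Pool.Agent.Q153.Dav.nine
      (V := (Fin 3 → ZMod 2) × ZMod 2) (by
        rw [Fintype.card_prod, Fintype.card_fun, ZMod.card, Fintype.card_fin]; norm_num)
      (Finset.univ : Finset (Fin l.length)) (by rw [Finset.card_univ, Fintype.card_fin, hcard])
      (fun i => ((g i).1, f2 (g i).2)) (fun i => f3 (g i).2)
    refine ⟨T.val.map g, ?_, ?_, ?_⟩
    · refine le_trans ?_ hS'
      have h3 : (Finset.univ : Finset (Fin l.length)).val.map g = (l : Multiset G₀) := by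
        rw [Fin.univ_val_map]
        congr 1
        exact List.ofFn_get l
      rw [← h3]
      exact Multiset.map_le_map (Finset.val_le_iff.2 (Finset.subset_univ T))
    · intro h
      rw [Multiset.map_eq_zero, Finset.val_eq_zero] at h
      exact hne.ne_empty h
    · change ∑ i ∈ T, g i = 0
      have e1 : ∑ i ∈ T, (g i).1 = 0 := by
        have := congrArg Prod.fst h1
        rwa [Prod.fst_sum] at this
      have e2 : f2 (∑ i ∈ T, (g i).2) = 0 := by
        have := congrArg Prod.snd h1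
        rwa [Prod.snd_sum, ← map_sum] at this
      have e3 : f3 (∑ i ∈ T, (g i).2) = 0 := by rwa [map_sum]
      have e4 : ∀ x : ZMod 6, f2 x = 0 → f3 x = 0 → x = 0 := by decide
      ext1
      · rw [Prod.fst_sum, e1]; rfl
      · rw [Prod.snd_sum, e4 _ e2 e3]; rfl
  apply le_antisymm
  · exact Nat.sInf_le hmem
  · refine le_csInf ⟨9, hmem⟩ ?_
    rintro t ⟨-, ht⟩
    by_contra hcon
    obtain ⟨T, hT, hne, hsum⟩ := ht seq8 (by rw [seq8_free.1]; omega)
    exact seq8_free.2 T (Multiset.mem_powerset.2 hT) hne hsum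

/-- the isomorphism of `C_2^3 ⊕ C_6` with the product of its invariant factors -/
def iso : G₀ ≃+ ∀ j : Fin 4, ZMod ((![2, 2, 2, 6] : Fin 4 → ℕ) j) where
  toFun g := Fin.cons (α := fun j : Fin 4 => ZMod ((![2, 2, 2, 6] : Fin 4 → ℕ) j)) (g.1 0)
    (Fin.cons (α := fun j : Fin 3 => ZMod ((![2, 2, 2, 6] : Fin 4 → ℕ) j.succ)) (g.1 1)
      (Fin.cons (α := fun j : Fin 2 => ZMod ((![2, 2, 2, 6] : Fin 4 → ℕ) j.succ.succ)) (g.1 2)
        (Fin.cons (α := fun j : Fin 1 => ZMod ((![2, 2, 2, 6] : Fin 4 → ℕ) j.succ.succ.succ)) g.2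
          (fun j => j.elim0))))
  invFun x := (![x 0, x 1, x 2], x 3)
  left_inv := by
    rintro ⟨p, z⟩
    ext j
    · fin_cases j <;> rfl
    · rfl
  right_inv := by
    intro x
    ext j
    fin_cases j <;> rfl
  map_add' := by
    intro g h
    ext j
    fin_cases j <;> rfl

/-- **Theorem.** For `G = C_2^3 ⊕ C_6` the Davenport constant is `9`, and there is a sequence over
`G` of length `10 = D(G) + 1` all of whose nonempty zero-sum subsequences have length `3`; so it has
no nonempty zero-sum subsequence of even length. Hence the statement of the problem fails (with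
`n₁ = 2`, `i = 2` and `𝒜 = {1}`). -/
theorem result :
    (davenport G₀ = 9 ∧ ∃ S : Multiset G₀, Multiset.card S = 10 ∧
      ∀ T ≤ S, T ≠ 0 → T.sum = 0 → Multiset.card T = 3) ∧ ¬ Conjecture := by
  refine ⟨⟨davenport_eq, seq, seq_card, fun T hT =>
    seq_lines T (Multiset.mem_powerset.2 hT)⟩, ?_⟩
  intro h
  obtain ⟨T, hT, hne, hsum, hb⟩ := h G₀ 3 ![2, 2, 2, 6] (by decide) (by decide) (by decide) ⟨iso⟩ 2
    (by norm_num) (by decide) seq (by rw [davenport_eq, seq_card]) {1} (by decide) (by decide)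
  have h3 := seq_lines T (Multiset.mem_powerset.2 hT) hne hsum
  apply hb 1 (by simp)
  rw [h3]
  decide

end Pool.Agent.Results.MP_9fddba_co.EvenLength
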